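import Pool.Agent.helper64.OT.SpecF

set_option autoImplicit false

namespace Pool.Agent.OT

open Finset Pool.Agent.SPI
open scoped Pointwise

lemma COB_large (c : ℝ) (hc : 0 < c) : ∃ p₀ : ℕ, ∀ p : ℕ, p₀ < p → ((Nat.log 2 p : ℝ) + 1) ≤ (p : ℝ) ^ (c / 2) := by
  have h1 : Filter.Tendsto (fun n : ℕ => ((n : ℝ)) ^ (c / 4)) Filter.atTop Filter.atTop :=
    (tendsto_rpow_atTop (by positivity : 0 < c / 4)).comp tendsto_natCast_atTop_atTop
  obtain ⟨p₀, hp₀⟩ := Filter.eventually_atTop.1 (h1.eventually_ge_atTop (8 / c + 1))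
  refine ⟨max p₀ 1, fun p hp => ?_⟩
  have hp1 : 1 < p := lt_of_le_of_lt (le_max_right _ _) hp
  have hpp : (1 : ℝ) ≤ (p : ℝ) := by exact_mod_cast hp1.le
  have hp0 : (0 : ℝ) < (p : ℝ) := by linarith
  have h2 := hp₀ p (le_of_lt (lt_of_le_of_lt (le_max_left _ _) hp))
  have h3 : (Nat.log 2 p : ℝ) ≤ 2 * Real.log p := by
    have h4 := Real.natLog_le_logb p 2
    have h5 : Real.logb ((2 : ℕ) : ℝ) (p : ℝ) = Real.log p / Real.log 2 := by
      unfold Real.logb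
      norm_num
    rw [h5] at h4
    refine h4.trans ?_
    have h6 : (0.5 : ℝ) < Real.log 2 := by linarith [Real.log_two_gt_d9]
    have h7 : 0 ≤ Real.log (p : ℝ) := Real.log_nonneg hpp
    rw [div_le_iff₀ (by linarith)]
    nlinarith
  have h4 : Real.log (p : ℝ) ≤ (p : ℝ) ^ (c / 4) / (c / 4) := Real.log_le_rpow_div hp0.le (by positivity)
  have h5 : (p : ℝ) ^ (c / 2) = (p : ℝ) ^ (c / 4) * (p : ℝ) ^ (c / 4) := by
    rw [← Real.rpow_add hp0]
    congr 1
    ring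
  have h6 : (p : ℝ) ^ (c / 4) / (c / 4) = (p : ℝ) ^ (c / 4) * (4 / c) := by
    field_simp
  have h7 : (1 : ℝ) ≤ (p : ℝ) ^ (c / 4) := Real.one_le_rpow hpp (by positivity)
  rw [h5]
  have h8 : (p : ℝ) ^ (c / 4) * (8 / c + 1) ≤ (p : ℝ) ^ (c / 4) * (p : ℝ) ^ (c / 4) :=
    mul_le_mul_of_nonneg_left h2 (by positivity)
  have h9 : (p : ℝ) ^ (c / 4) * (8 / c + 1) = 2 * ((p : ℝ) ^ (c / 4) * (4 / c)) + (p : ℝ) ^ (c / 4) := by ring
  rw [h6] at h4
  linarith

theorem COB (hUNI : UNI_stmt) (hDYA : DYA_stmt) : COB_stmt := by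
  classical
  intro ε hε
  obtain ⟨c, p₁, hc, h⟩ := hUNI ε hε
  obtain ⟨p₂, hp₂⟩ := COB_large c hc
  refine ⟨c / 2, max p₁ p₂, by positivity, ?_⟩
  intro p _ hp χ N X B β hχ hβ hN hX hNB
  have hp1 : (1 : ℝ) ≤ (p : ℝ) := by exact_mod_cast (Fact.out : p.Prime).one_lt.le
  have hp0 : (0 : ℝ) < (p : ℝ) := by linarith
  obtain ⟨P, hPB, hPsum, hPc⟩ := hDYA p N B
  have hi : ∀ i, ∑ x ∈ X, ‖FB χ (P i) β x‖ ≤
      (p : ℝ) ^ (-c) * (Real.sqrt (p * (X.card * B.card)) + X.card * B.card) := by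
    intro i
    have hcard : ((P i).card : ℝ) ≤ B.card := by exact_mod_cast Finset.card_le_card (hPB i)
    have hcells : ((cells N (P i)).card : ℝ) ≤ (cells N B).card := by
      exact_mod_cast Finset.card_le_card (hPc i).1
    have h1 := h p (lt_of_le_of_lt (le_max_left _ _) hp) χ N (2 ^ i) X (P i) β hχ hβ hN hX
      ((mul_le_mul_of_nonneg_left hcells (Nat.cast_nonneg _)).trans hNB) (hPc i).2
    refine h1.trans (mul_le_mul_of_nonneg_left ?_ (Real.rpow_nonneg hp0.le _))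
    have h2 : (X.card : ℝ) * (P i).card ≤ X.card * B.card :=
      mul_le_mul_of_nonneg_left hcard (Nat.cast_nonneg _)
    refine add_le_add (Real.sqrt_le_sqrt ?_) h2
    exact mul_le_mul_of_nonneg_left h2 hp0.le
  have hT : 0 ≤ Real.sqrt (p * (X.card * B.card)) + (X.card : ℝ) * B.card := by positivity
  calc ∑ x ∈ X, ‖FB χ B β x‖
      ≤ ∑ x ∈ X, ∑ i ∈ range (Nat.log 2 p + 1), ‖FB χ (P i) β x‖ := by
        refine Finset.sum_le_sum fun x _ => ?_
        have h1 : FB χ B β x = ∑ i ∈ range (Nat.log 2 p + 1), FB χ (P i) β x := by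
          unfold FB
          exact hPsum _
        rw [h1]
        exact norm_sum_le _ _
    _ = ∑ i ∈ range (Nat.log 2 p + 1), ∑ x ∈ X, ‖FB χ (P i) β x‖ := Finset.sum_comm
    _ ≤ ∑ i ∈ range (Nat.log 2 p + 1), (p : ℝ) ^ (-c) *
        (Real.sqrt (p * (X.card * B.card)) + X.card * B.card) := Finset.sum_le_sum fun i _ => hi i
    _ = ((Nat.log 2 p : ℝ) + 1) * ((p : ℝ) ^ (-c) *
        (Real.sqrt (p * (X.card * B.card)) + X.card * B.card)) := by
        rw [Finset.sum_const, Finset.card_range, nsmul_eq_mul]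
        push_cast
        ring
    _ ≤ (p : ℝ) ^ (c / 2) * ((p : ℝ) ^ (-c) *
        (Real.sqrt (p * (X.card * B.card)) + X.card * B.card)) :=
        mul_le_mul_of_nonneg_right (hp₂ p (lt_of_le_of_lt (le_max_right _ _) hp))
          (mul_nonneg (Real.rpow_nonneg hp0.le _) hT)
    _ = (p : ℝ) ^ (-(c / 2)) * (Real.sqrt (p * (X.card * B.card)) + X.card * B.card) := by
        rw [← mul_assoc, ← Real.rpow_add hp0]
        congr 2
        ring

end Pool.Agent.OT
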