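import Pool.Agent.helper64.OT.SpecF

set_option autoImplicit false

namespace Pool.Agent.OT

open Finset Pool.Agent.SPI
open scoped Pointwise

theorem OTF (hTRS : TRS_stmt) (hOLD : OLD_stmt) (hMOI : MOI_stmt) : OTF_stmt := by
  intro K ε hε
  obtain ⟨δ₁, p₁, hδ₁, h₁⟩ := hTRS ε hε
  obtain ⟨δ₂, p₂, hδ₂, h₂⟩ := hOLD K ε hε
  refine ⟨min δ₁ δ₂, max p₁ p₂, lt_min hδ₁ hδ₂, ?_⟩
  intro p _ hp χ N X Y Z W H₁ H₂ β a b c d hχ hβ hX hY hZ hyp
  have hp1 : (1 : ℝ) ≤ (p : ℝ) := by exact_mod_cast (Fact.out : p.Prime).one_lt.le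
  have hT : 0 ≤ Real.sqrt (p * (X.card * Y.card)) + (X.card : ℝ) * Y.card := by positivity
  refine hMOI p χ X Y a b c d _ hX hY ?_ β hβ
  intro β' hβ'
  rcases hyp with hN | hH
  · have hZ' : (Z.card : ℝ) ≤ (p : ℝ) ^ δ₁ :=
      hZ.trans (Real.rpow_le_rpow_of_exponent_le hp1 (min_le_left _ _))
    refine (h₁ p (lt_of_le_of_lt (le_max_left _ _) hp) χ N X Y Z W β' hχ hβ' hZ' hN).trans ?_
    exact mul_le_mul_of_nonneg_right
      (Real.rpow_le_rpow_of_exponent_le hp1 (neg_le_neg (min_le_left _ _))) hT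
  · have hZ' : (Z.card : ℝ) ≤ (p : ℝ) ^ δ₂ :=
      hZ.trans (Real.rpow_le_rpow_of_exponent_le hp1 (min_le_right _ _))
    have hH' : HypH p ε K δ₂ X Y Z W H₁ H₂ :=
      ⟨hH.1.trans (Real.rpow_le_rpow_of_exponent_le hp1 (min_le_right _ _)), hH.2⟩
    refine (h₂ p (lt_of_le_of_lt (le_max_right _ _) hp) χ X Y Z W H₁ H₂ β' hχ hβ' hZ' hH').trans ?_
    exact mul_le_mul_of_nonneg_right
      (Real.rpow_le_rpow_of_exponent_le hp1 (neg_le_neg (min_le_right _ _))) hT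

end Pool.Agent.OT
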